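import Pool.Agent.Run7.h286.PL.StmM
import Pool.Agent.Run7.h824.PL.FF

/-!
# Project PRL (helper286), piece LSA: primes with prescribed quadratic characters, upper bound (helper416)
-/

set_option autoImplicit false
set_option linter.all false

open Polynomial
open scoped Classical

namespace Run7.h416.PL

open Pool.Agent.H341R2.Sharp
open Pool.Agent.Y164.PS (lam_mem lam_eq_zero_iff lam_mul_left lam_irr)
open Run7.h875.TS (irrD dg cd)
open Run7.h437.TS (mem_irrD trs)

/-- quadratic reciprocity, for resultants -/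
theorem lam_recip {k : Type} [Field k] [Fintype k] (f g : k[X]) :
    lam f g = quadraticChar k (-1) ^ (g.natDegree * f.natDegree) * lam g f := by
  unfold lam
  rw [resultant_comm, map_mul, map_pow]

theorem qc_neg_one_pow {k : Type} [Field k] [Fintype k] (n : ℕ) :
    quadraticChar k (-1) ^ n = 1 ∨ quadraticChar k (-1) ^ n = -1 := by
  rcases quadraticChar_dichotomy (F := k) (a := -1) (by simp) with h | h
  · left; rw [h, one_pow]
  · rw [h]; exact neg_one_pow_eq_or ℤ n

/-- **LSA.** -/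
theorem T_LSA : Run7.h286.PL.P_LSA := by
  intro k _ _ h2
  haveI := Fintype.ofFinite k
  have hk : ringChar k ≠ 2 := by
    intro h0
    apply h2
    have : ((2 : ℕ) : k) = 0 := by rw [ringChar.spec, h0]
    exact_mod_cast this
  refine ⟨1, fun S η hS m hm => ?_⟩
  obtain ⟨E, _, _, _, hfr, hcd, hsum, -⟩ := trs k m hm
  have hcdE : cd E = (Fintype.card E : ℝ) := by
    unfold cd
    rw [Nat.card_eq_fintype_card]
  obtain ⟨q, hq⟩ : ∃ q : ℝ, q = (Nat.card k : ℝ) ^ m := ⟨_, rfl⟩
  have hcE : (Fintype.card E : ℝ) = q := by rw [← hcdE, hcd, ← hq]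
  rw [← hq]
  have hq0 : 0 ≤ q := by rw [hq]; positivity
  -- signs
  obtain ⟨ε, hε⟩ : ∃ ε : k[X] → ℤ, ε = fun P =>
    quadraticChar k (-1) ^ (P.natDegree * m) * (if η P then 1 else -1) := ⟨_, rfl⟩
  have hε1 : ∀ P, ε P = 1 ∨ ε P = -1 := by
    intro P
    rw [hε]
    simp only
    rcases qc_neg_one_pow (k := k) (P.natDegree * m) with h | h <;> rw [h] <;> split_ifs <;> norm_num
  have key : ∀ Q ∈ irrD k m, Q ∉ S → (∀ P ∈ S, (∃ z : k[X], P ∣ z ^ 2 - Q) ↔ η P) →
      ∀ P ∈ S, ε P * lam P Q = 1 := by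
    intro Q hQ hQS hQη P hP
    obtain ⟨hmon, hirr, hdeg⟩ := mem_irrD.1 hQ
    obtain ⟨hPm, hPi⟩ := hS P hP
    have hnd : ¬ P ∣ Q := by
      intro hd
      have h1 := eq_of_monic_of_associated hPm hmon (hPi.associated_of_dvd hirr hd)
      rw [h1] at hP
      exact hQS hP
    have hco : IsCoprime Q P := ((hPi.coprime_iff_not_dvd).2 hnd).symm
    have h0 : lam Q P ≠ 0 := fun h => (lam_eq_zero_iff hPm.ne_zero).1 h hco
    have h1 : lam Q P = if η P then 1 else -1 := by
      have h3 := lam_irr hk hPm hPi hnd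
      split_ifs with hη
      · exact h3.2 ((hQη P hP).2 hη)
      · rcases lam_mem Q P with e | e | e
        · exact absurd e h0
        · exact absurd ((hQη P hP).1 (h3.1 e)) hη
        · exact e
    have h4 := lam_recip Q P
    rw [hdeg] at h4
    rw [hε]
    simp only
    rw [← h1, mul_right_comm, ← h4]
    rcases lam_mem Q P with e | e | e
    · exact absurd e h0
    · rw [e]; norm_num
    · rw [e]; norm_num
  -- the weights
  obtain ⟨φ, hφ⟩ : ∃ φ : k[X] → ℝ, φ = fun Q => ∏ P ∈ S, (1 + (ε P : ℝ) * (lam P Q : ℝ)) / 2 := ⟨_, rfl⟩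
  have hφ0 : ∀ Q, 0 ≤ φ Q := by
    intro Q
    rw [hφ]
    refine Finset.prod_nonneg fun P hP => ?_
    rcases hε1 P with h | h <;> rcases lam_mem P Q with h' | h' | h' <;> rw [h, h'] <;> norm_num
  have hcount : (m : ℝ) * (((irrD k m).filter fun Q => Q ∉ S ∧ ∀ P ∈ S, (∃ z : k[X], P ∣ z ^ 2 - Q) ↔ η P).card : ℝ) ≤
      (m : ℝ) * ∑ Q ∈ irrD k m, φ Q := by
    refine mul_le_mul_of_nonneg_left ?_ (Nat.cast_nonneg _)
    rw [Finset.card_eq_sum_ones, Nat.cast_sum]
    refine (Finset.sum_le_sum (g := φ) fun Q hQ => ?_).trans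
      (Finset.sum_le_sum_of_subset_of_nonneg (Finset.filter_subset _ _) fun Q _ _ => hφ0 Q)
    obtain ⟨hQ1, hQ2, hQ3⟩ := Finset.mem_filter.1 hQ
    rw [hφ]
    simp only
    rw [Finset.prod_eq_one]
    · simp
    · intro P hP
      have h1 := key Q hQ1 hQ2 hQ3 P hP
      have h3 : (ε P : ℝ) * (lam P Q : ℝ) = 1 := by exact_mod_cast h1
      rw [h3]
      norm_num
  -- the sum over `E`
  obtain ⟨ψ, hψ⟩ : ∃ ψ : E → ℝ, ψ = fun t => ∏ P ∈ S, (1 + (ε P : ℝ) * (quadraticChar E (aeval t P) : ℝ)) / 2 :=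
    ⟨_, rfl⟩
  have hψ0 : ∀ t, 0 ≤ ψ t := by
    intro t
    rw [hψ]
    refine Finset.prod_nonneg fun P hP => ?_
    rcases hε1 P with h | h <;> rcases quadraticChar_isQuadratic E (aeval t P) with h' | h' | h' <;> rw [h, h'] <;>
      norm_num
  have hup : (m : ℝ) * ∑ Q ∈ irrD k m, φ Q ≤ ∑ t, ψ t := by
    rw [hsum φ]
    refine le_trans (Finset.sum_le_sum (g := ψ) fun t ht => ?_)
      (Finset.sum_le_sum_of_subset_of_nonneg (Finset.filter_subset _ _) fun t _ _ => hψ0 t)
    have ht' : (minpoly k t).natDegree = m := (Finset.mem_filter.1 ht).2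
    rw [hφ, hψ]
    simp only
    refine le_of_eq (Finset.prod_congr rfl fun P hP => ?_)
    have h1 := qc_aeval (F := k) (E := E) hk P t
    rw [ht', hfr, Nat.div_self hm, pow_one] at h1
    rw [h1]
  have hψe : ∀ t, ψ t = (1 / 2) ^ S.card *
      ∑ B ∈ S.powerset, (∏ p ∈ B, (ε p : ℝ)) * (quadraticChar E (aeval t (∏ p ∈ B, p)) : ℝ) := by
    intro t
    rw [hψ]
    simp only
    have h1 : ∏ P ∈ S, (1 + (ε P : ℝ) * (quadraticChar E (aeval t P) : ℝ)) / 2 =
        (1 / 2) ^ S.card * ∏ P ∈ S, (1 + (ε P : ℝ) * (quadraticChar E (aeval t P) : ℝ)) := by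
      rw [← Finset.prod_const, ← Finset.prod_mul_distrib]
      refine Finset.prod_congr rfl fun P _ => by ring
    rw [h1, Finset.prod_one_add]
    congr 1
    refine Finset.sum_congr rfl fun B _ => ?_
    rw [Finset.prod_mul_distrib, map_prod, map_prod]
    push_cast
    rfl
  have hbd : ∑ t, ψ t ≤ (1 / 2) ^ S.card * q + dg S * √q := by
    simp only [hψe]
    rw [← Finset.mul_sum, Finset.sum_comm]
    simp only [← Finset.mul_sum]
    have h1 : ∀ B ∈ S.powerset, (∏ p ∈ B, (ε p : ℝ)) * ∑ t : E, (quadraticChar E (aeval t (∏ p ∈ B, p)) : ℝ) ≤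
        (if B = ∅ then q else 0) + dg S * √q := by
      intro B hB
      rw [Finset.mem_powerset] at hB
      split_ifs with hB0
      · subst hB0
        simp only [Finset.prod_empty, map_one, one_mul, Int.cast_one, Finset.sum_const, Finset.card_univ, nsmul_eq_mul,
          mul_one]
        rw [hcE]
        have : 0 ≤ (dg S : ℝ) * √q := by positivity
        linarith
      · have hBm : (∏ p ∈ B, p).Monic := monic_prod_of_monic _ _ fun p hp => (hS p (hB hp)).1
        have hBd : (∏ p ∈ B, p).natDegree = ∑ p ∈ B, p.natDegree :=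
          natDegree_prod_of_monic _ _ fun p hp => (hS p (hB hp)).1
        have hBd1 : 1 ≤ (∏ p ∈ B, p).natDegree := by
          rw [hBd]
          obtain ⟨p, hp⟩ := Finset.nonempty_iff_ne_empty.2 hB0
          exact (hS p (hB hp)).2.natDegree_pos.trans_le
            (Finset.single_le_sum (f := fun p : k[X] => p.natDegree) (fun _ _ => Nat.zero_le _) hp)
        have hBd2 : (∏ p ∈ B, p).natDegree ≤ dg S := by
          rw [hBd]
          unfold dg
          exact Finset.sum_le_sum_of_subset hB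
        have hBs : Squarefree (∏ p ∈ B, p) := by
          refine (Finset.squarefree_prod_of_pairwise_isCoprime ?_ fun p hp => (hS p (hB hp)).2.squarefree)
          intro p hp r hr hne
          have hp' := hS p (hB hp)
          have hr' := hS r (hB hr)
          show IsRelPrime p r
          refine (IsCoprime.isRelPrime ?_)
          rw [hp'.2.coprime_iff_not_dvd]
          intro hdv
          exact hne (eq_of_monic_of_associated hp'.1 hr'.1 (hp'.2.associated_of_dvd hr'.2 hdv))
        have h2 := Run7.h824.PL.weil_ext (E := E) hk (∏ p ∈ B, p) hBm hBd1 hBs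
        rw [hcE] at h2
        have h3 : |∏ p ∈ B, (ε p : ℝ)| = 1 := by
          rw [Finset.abs_prod]
          refine Finset.prod_eq_one fun p hp => ?_
          rcases hε1 p with h | h <;> rw [h] <;> simp
        have h4 : |(∏ p ∈ B, (ε p : ℝ)) * ∑ t : E, (quadraticChar E (aeval t (∏ p ∈ B, p)) : ℝ)| ≤ dg S * √q := by
          rw [abs_mul, h3, one_mul]
          refine h2.trans ?_
          gcongr
        have := (abs_le.1 h4).2
        linarith
    have h2 := Finset.sum_le_sum h1
    rw [Finset.sum_add_distrib, Finset.sum_ite_eq', if_pos (Finset.empty_mem_powerset S), Finset.sum_const,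
      Finset.card_powerset, nsmul_eq_mul] at h2
    have h3 : (0 : ℝ) ≤ (1 / 2) ^ S.card := by positivity
    refine (mul_le_mul_of_nonneg_left h2 h3).trans (le_of_eq ?_)
    have h4 : ((1 : ℝ) / 2) ^ S.card * 2 ^ S.card = 1 := by
      rw [← mul_pow]
      norm_num
    push_cast
    linear_combination (dg S * √q) * h4
  have hm0 : (0 : ℝ) < m := by exact_mod_cast hm
  have hm1 : (1 : ℝ) ≤ m := by exact_mod_cast hm
  have hall := (hcount.trans hup).trans hbd
  have hsq : 0 ≤ √q := Real.sqrt_nonneg _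
  have hfin : (m : ℝ) * (((irrD k m).filter fun Q => Q ∉ S ∧ ∀ P ∈ S, (∃ z : k[X], P ∣ z ^ 2 - Q) ↔ η P).card : ℝ) ≤
      m * ((1 / 2) ^ S.card * q / m + (1 : ℕ) * (1 + dg S) * √q) := by
    refine hall.trans ?_
    have e : (m : ℝ) * ((1 / 2) ^ S.card * q / m + (1 : ℕ) * (1 + dg S) * √q) =
        (1 / 2) ^ S.card * q + m * ((1 + dg S) * √q) := by
      field_simp
      push_cast
      ring
    rw [e]
    have h5 : (dg S : ℝ) * √q ≤ m * ((1 + dg S) * √q) := by
      have h6 : (0 : ℝ) ≤ (1 + dg S) * √q := by positivity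
      nlinarith
    linarith
  exact le_of_mul_le_mul_left hfin hm0

end Run7.h416.PL
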